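import Pool.Agent.H995R3.Kurepa.Defs

set_option autoImplicit false

open Set Cardinal Filter

namespace Pool.Agent.H995R3.Kurepa

section BMR

variable {W : Type} (R : W → W → Prop) (S : Set W)

/-- conditions: finite partial specializing functions on `S`. -/
def SpCond (p : Finset (W × ℕ)) : Prop :=
  (∀ a ∈ p, a.1 ∈ S) ∧ (∀ a ∈ p, ∀ b ∈ p, a.1 = b.1 → a = b) ∧
    ∀ a ∈ p, ∀ b ∈ p, R a.1 b.1 → a.2 ≠ b.2

def SpPos : Type := {p : Finset (W × ℕ) // SpCond R S p}

instance : PartialOrder (SpPos R S) where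
  le p q := q.1 ⊆ p.1
  le_refl p := Finset.Subset.refl _
  le_trans p q r h1 h2 := Finset.Subset.trans h2 h1
  le_antisymm p q h1 h2 := Subtype.ext (Finset.Subset.antisymm h2 h1)

instance : Nonempty (SpPos R S) := ⟨⟨∅, by simp [SpCond]⟩⟩

variable {R S}

/-- If `R` has no uncountable chain inside `S`, the specializing poset is ccc. -/
theorem sp_ccc (hirr : ∀ a, ¬ R a a)
    (hlin : ∀ a a' b, R a b → R a' b → a = a' ∨ R a a' ∨ R a' a)
    (hpc : ∀ b, {a | R a b}.Countable)
    (hS : ∀ C ⊆ S, IsChain R C → C.Countable) : CCC (SpPos R S) := by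
  classical
  intro A hA
  by_contra hunc
  -- step 1: fix the size
  have h1 : ∃ n : ℕ, ¬ {p | p ∈ A ∧ p.1.card = n}.Countable := by
    by_contra hn
    push Not at hn
    apply hunc
    have : A ⊆ ⋃ n : ℕ, {p | p ∈ A ∧ p.1.card = n} := by
      intro p hp
      simp only [mem_iUnion]
      exact ⟨_, hp, rfl⟩
    exact (Set.countable_iUnion hn).mono this
  obtain ⟨n, hn⟩ := h1
  -- step 2: maximal common part
  let Q : Finset (W × ℕ) → Prop := fun d => ¬ {p | p ∈ A ∧ p.1.card = n ∧ d ⊆ p.1}.Countable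
  have hQ0 : Q ∅ := by
    show ¬ {p | p ∈ A ∧ p.1.card = n ∧ (∅ : Finset (W × ℕ)) ⊆ p.1}.Countable
    simpa using hn
  have hQb : ∀ d, Q d → d.card ≤ n := by
    intro d hd
    have : {p | p ∈ A ∧ p.1.card = n ∧ d ⊆ p.1}.Nonempty := by
      by_contra he
      rw [Set.not_nonempty_iff_eq_empty] at he
      apply hd
      rw [he]
      exact Set.countable_empty
    obtain ⟨p, _, hp, hdp⟩ := this
    rw [← hp]
    exact Finset.card_le_card hdp
  obtain ⟨d, hd, hmax⟩ : ∃ d, Q d ∧ ∀ d', Q d' → d'.card ≤ d.card := by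
    have hex : ∃ k, ∃ d, Q d ∧ d.card = k := ⟨_, ∅, hQ0, rfl⟩
    have hbd : ∀ k, (∃ d, Q d ∧ d.card = k) → k ≤ n := by
      rintro k ⟨d, hd, rfl⟩
      exact hQb d hd
    obtain ⟨d, hd, hk⟩ := Nat.findGreatest_spec (P := fun k => ∃ d, Q d ∧ d.card = k)
      (hbd _ hex.choose_spec) hex.choose_spec
    refine ⟨d, hd, fun d' hd' => ?_⟩
    rw [hk]
    exact Nat.le_findGreatest (hbd _ ⟨d', hd', rfl⟩) ⟨d', hd', rfl⟩
  let A' : Set (SpPos R S) := {p | p ∈ A ∧ p.1.card = n ∧ d ⊆ p.1}
  have hA'unc : ¬ A'.Countable := hd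
  have hrare : ∀ x ∉ d, {p | p ∈ A' ∧ x ∈ p.1}.Countable := by
    intro x hx
    by_contra hc
    have : Q (insert x d) := by
      intro hcc
      apply hc
      refine hcc.mono ?_
      rintro p ⟨⟨h1, h2, h3⟩, h4⟩
      refine ⟨h1, h2, ?_⟩
      intro y hy
      rcases Finset.mem_insert.mp hy with rfl | hy
      · exact h4
      · exact h3 hy
    have := hmax _ this
    rw [Finset.card_insert_of_notMem hx] at this
    omega
  have hrare' : ∀ t : W, (∀ k, (t, k) ∉ d) → {p | p ∈ A' ∧ ∃ k, (t, k) ∈ p.1}.Countable := by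
    intro t ht
    have : {p | p ∈ A' ∧ ∃ k, (t, k) ∈ p.1} = ⋃ k : ℕ, {p | p ∈ A' ∧ (t, k) ∈ p.1} := by
      ext p
      simp
    rw [this]
    exact Set.countable_iUnion fun k => hrare _ (ht k)
  -- the ultrafilter
  let I := {p // p ∈ A'}
  have hIunc : ¬ Countable I := fun hc => hA'unc (Set.countable_coe_iff.mp hc)
  haveI hne : (Filter.cocountable : Filter I).NeBot := by
    refine ⟨fun hbot => hIunc ?_⟩
    have : (∅ : Set I) ∈ (Filter.cocountable : Filter I) := by
      rw [hbot]
      exact Filter.mem_bot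
    rw [Filter.mem_cocountable, compl_empty] at this
    exact Set.countable_univ_iff.mp this
  let U : Ultrafilter I := Ultrafilter.of Filter.cocountable
  have hU : ∀ s : Set I, (sᶜ).Countable → s ∈ U := fun s hs =>
    Ultrafilter.of_le (f := (Filter.cocountable : Filter I)) (Filter.mem_cocountable.mpr hs)
  have hUc : ∀ s : Set I, s.Countable → ∀ᶠ q in (U : Filter I), q ∉ s := by
    intro s hs
    exact hU sᶜ (by simpa using hs)
  have hpull : ∀ s : Set (SpPos R S), s.Countable → ∀ᶠ q in (U : Filter I), q.1 ∉ s := by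
    intro s hs
    refine hUc {q : I | q.1 ∈ s} ?_
    exact hs.preimage Subtype.val_injective
  -- enumeration
  have hcard : ∀ q : I, q.1.1.card = n := fun q => q.2.2.1
  let en : I → Fin n → W × ℕ := fun q k => ((q.1.1.equivFinOfCardEq (hcard q)).symm k).1
  have hen : ∀ (q : I) (b : W × ℕ), b ∈ q.1.1 → ∃ k, en q k = b := by
    intro q b hb
    refine ⟨q.1.1.equivFinOfCardEq (hcard q) ⟨b, hb⟩, ?_⟩
    simp [en]
  -- main claim
  have key : ∀ p : I, ∃ (a : W × ℕ) (k : Fin n), a ∈ p.1.1 ∧ (∀ m, (a.1, m) ∉ d) ∧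
      ∀ᶠ q in (U : Filter I), R a.1 (en q k).1 := by
    intro p
    have e1 : ∀ᶠ q in (U : Filter I), q ≠ p := by
      have := hUc {p} (countable_singleton p)
      simpa using this
    have e2 : ∀ᶠ q in (U : Filter I), ∀ a ∈ p.1.1, (∀ m, (a.1, m) ∉ d) → ∀ m, (a.1, m) ∉ q.1.1 := by
      have : ∀ a ∈ p.1.1, ∀ᶠ q in (U : Filter I), (∀ m, (a.1, m) ∉ d) → ∀ m, (a.1, m) ∉ q.1.1 := by
        intro a _
        by_cases hd' : ∀ m, (a.1, m) ∉ d
        · refine (hpull _ (hrare' a.1 hd')).mono ?_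
          intro q hq _ m hm
          exact hq ⟨q.2, m, hm⟩
        · exact Filter.Eventually.of_forall fun q hh => absurd hh hd'
      rw [← Filter.eventually_all_finset] at this
      exact this
    have e3 : ∀ᶠ q in (U : Filter I), ∀ b ∈ p.1.1, ∀ t, R t b.1 → (∀ m, (t, m) ∉ d) →
        ∀ m, (t, m) ∉ q.1.1 := by
      have : ∀ b ∈ p.1.1, ∀ᶠ q in (U : Filter I), ∀ t, R t b.1 → (∀ m, (t, m) ∉ d) →
          ∀ m, (t, m) ∉ q.1.1 := by
        intro b _
        have hcc : (⋃ t ∈ {t | R t b.1 ∧ ∀ m, (t, m) ∉ d},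
            {p | p ∈ A' ∧ ∃ k, (t, k) ∈ p.1}).Countable := by
          refine Set.Countable.biUnion ((hpc b.1).mono fun t ht => ht.1) ?_
          intro t ht
          exact hrare' t ht.2
        refine (hpull _ hcc).mono ?_
        intro q hq t ht hd' m hm
        apply hq
        simp only [mem_iUnion]
        exact ⟨t, ⟨ht, hd'⟩, q.2, m, hm⟩
      rw [← Filter.eventually_all_finset] at this
      exact this
    have e4 : ∀ᶠ q in (U : Filter I), ∃ x : {a : W × ℕ // a ∈ p.1.1} × Fin n,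
        (∀ m, (x.1.1.1, m) ∉ d) ∧ R x.1.1.1 (en q x.2).1 := by
      filter_upwards [e1, e2, e3] with q hqp h2 h3
      have hinc := hA p.1 p.2.1 q.1 q.2.1 (fun hh => hqp (Subtype.ext hh.symm))
      have hfp := p.1.2
      have hfq := q.1.2
      have hdp : d ⊆ p.1.1 := p.2.2.2
      have hdq : d ⊆ q.1.1 := q.2.2.2
      have memd : ∀ a ∈ p.1.1, ¬ (∀ m, (a.1, m) ∉ d) → a ∈ d := by
        intro a ha hh
        push Not at hh
        obtain ⟨m, hm⟩ := hh
        have := hfp.2.1 a ha _ (hdp hm) rfl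
        rw [this]
        exact hm
      have memd' : ∀ a ∈ q.1.1, ¬ (∀ m, (a.1, m) ∉ d) → a ∈ d := by
        intro a ha hh
        push Not at hh
        obtain ⟨m, hm⟩ := hh
        have := hfq.2.1 a ha _ (hdq hm) rfl
        rw [this]
        exact hm
      by_contra hno
      apply hinc
      have hfun : ∀ a ∈ p.1.1, ∀ b ∈ q.1.1, a.1 = b.1 → a = b := by
        intro a ha b hb hab
        by_cases had : ∀ m, (a.1, m) ∉ d
        · exact absurd (by rw [hab]; exact hb) (h2 a ha had b.2)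
        · exact hfq.2.1 a (hdq (memd a ha had)) b hb hab
      have hpq : ∀ a ∈ p.1.1, ∀ b ∈ q.1.1, R a.1 b.1 → a.2 ≠ b.2 := by
        intro a ha b hb hab
        by_cases had : ∀ m, (a.1, m) ∉ d
        · exfalso
          apply hno
          obtain ⟨k, hk⟩ := hen q b hb
          exact ⟨(⟨a, ha⟩, k), had, by rw [hk]; exact hab⟩
        · exact hfq.2.2 a (hdq (memd a ha had)) b hb hab
      have hqp' : ∀ a ∈ q.1.1, ∀ b ∈ p.1.1, R a.1 b.1 → a.2 ≠ b.2 := by
        intro a ha b hb hab
        by_cases had : ∀ m, (a.1, m) ∉ d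
        · exact absurd ha (h3 b hb a.1 hab had a.2)
        · exact hfp.2.2 a (hdp (memd' a ha had)) b hb hab
      refine ⟨⟨p.1.1 ∪ q.1.1, ?_, ?_, ?_⟩, ?_, ?_⟩
      · intro a ha
        rcases Finset.mem_union.mp ha with ha | ha
        · exact hfp.1 a ha
        · exact hfq.1 a ha
      · intro a ha b hb hab
        rcases Finset.mem_union.mp ha with ha | ha <;> rcases Finset.mem_union.mp hb with hb | hb
        · exact hfp.2.1 a ha b hb hab
        · exact hfun a ha b hb hab
        · exact (hfun b hb a ha hab.symm).symm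
        · exact hfq.2.1 a ha b hb hab
      · intro a ha b hb hab
        rcases Finset.mem_union.mp ha with ha | ha <;> rcases Finset.mem_union.mp hb with hb | hb
        · exact hfp.2.2 a ha b hb hab
        · exact hpq a ha b hb hab
        · exact hqp' a ha b hb hab
        · exact hfq.2.2 a ha b hb hab
      · exact Finset.subset_union_left
      · exact Finset.subset_union_right
    obtain ⟨x, hx⟩ := (Ultrafilter.eventually_exists_iff (f := U)).mp e4
    obtain ⟨q, hq⟩ := hx.exists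
    exact ⟨x.1.1, x.2, x.1.2, hq.1, hx.mono fun q hq => hq.2⟩
  choose a k ha had hak using key
  have h4 : ∃ k0, ¬ {p | k p = k0}.Countable := by
    by_contra hcon
    push Not at hcon
    apply hIunc
    have : (univ : Set I) ⊆ ⋃ k0, {p | k p = k0} := fun p _ => by simp
    exact Set.countable_univ_iff.mp ((Set.countable_iUnion hcon).mono this)
  obtain ⟨k0, hk0⟩ := h4
  let C : Set W := (fun p => (a p).1) '' {p | k p = k0}
  have hCS : C ⊆ S := by
    rintro _ ⟨p, _, rfl⟩
    exact p.1.2.1 _ (ha p)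
  have hCch : IsChain R C := by
    rintro _ ⟨p, hp, rfl⟩ _ ⟨p', hp', rfl⟩ hne'
    obtain ⟨q, h1, h2⟩ := ((hak p).and (hak p')).exists
    simp only [mem_setOf_eq] at hp hp'
    rw [hp] at h1
    rw [hp'] at h2
    rcases hlin _ _ _ h1 h2 with h | h | h
    · exact absurd h hne'
    · exact Or.inl h
    · exact Or.inr h
  have hCc := hS C hCS hCch
  apply hk0
  have : {p | k p = k0} ⊆ ⋃ t ∈ C, {p : I | (a p).1 = t ∧ ∀ m, (t, m) ∉ d} := by
    intro p hp
    simp only [mem_iUnion]
    exact ⟨(a p).1, ⟨p, hp, rfl⟩, rfl, had p⟩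
  refine (hCc.biUnion fun t _ => ?_).mono this
  by_cases hd' : ∀ m, (t, m) ∉ d
  · refine ((hrare' t hd').preimage (Subtype.val_injective (p := fun p => p ∈ A'))).mono ?_
    rintro p ⟨hp, _⟩
    refine ⟨p.2, (a p).2, ?_⟩
    have := ha p
    rw [← hp]
    exact this
  · refine Set.Countable.mono ?_ Set.countable_empty
    rintro p ⟨_, hp⟩
    exact hd' hp

/-- Baumgartner–Malitz–Reinhardt. -/
theorem bmr (hMA : MartinAxiomAleph1) (hW : #W ≤ aleph 1) (hirr : ∀ a, ¬ R a a)
    (hlin : ∀ a a' b, R a b → R a' b → a = a' ∨ R a a' ∨ R a' a)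
    (hpc : ∀ b, {a | R a b}.Countable)
    (hS : ∀ C ⊆ S, IsChain R C → C.Countable) :
    ∃ f : W → ℕ, ∀ s ∈ S, ∀ t ∈ S, R s t → f s ≠ f t := by
  classical
  let Dn : W → Set (SpPos R S) := fun t => {p | t ∈ S → ∃ n, (t, n) ∈ p.1}
  obtain ⟨G, _, _, hG, hGD⟩ := hMA (SpPos R S) (sp_ccc hirr hlin hpc hS) (range Dn)
    (mk_range_le.trans hW) (by
      rintro _ ⟨t, rfl⟩ p
      by_cases ht : t ∈ S
      · by_cases hp : ∃ n, (t, n) ∈ p.1
        · exact ⟨p, fun _ => hp, le_refl _⟩
        · push Not at hp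
          let m := p.1.sup Prod.snd + 1
          have hm : ∀ a ∈ p.1, a.2 ≠ m := by
            intro a ha hh
            have := Finset.le_sup (f := Prod.snd) ha
            omega
          refine ⟨⟨insert (t, m) p.1, ?_, ?_, ?_⟩, fun _ => ⟨m, Finset.mem_insert_self _ _⟩,
            Finset.subset_insert _ _⟩
          · intro a ha
            rcases Finset.mem_insert.mp ha with rfl | ha
            · exact ht
            · exact p.2.1 a ha
          · intro a ha b hb hab
            rcases Finset.mem_insert.mp ha with rfl | ha <;>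
              rcases Finset.mem_insert.mp hb with rfl | hb
            · rfl
            · exfalso
              have hab' : t = b.1 := hab
              exact hp b.2 (by rw [hab']; exact hb)
            · exfalso
              have hab' : a.1 = t := hab
              exact hp a.2 (by rw [← hab']; exact ha)
            · exact p.2.2.1 a ha b hb hab
          · intro a ha b hb hab
            rcases Finset.mem_insert.mp ha with rfl | ha <;>
              rcases Finset.mem_insert.mp hb with rfl | hb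
            · exact absurd hab (hirr _)
            · exact (hm b hb).symm
            · exact hm a ha
            · exact p.2.2.2 a ha b hb hab
      · exact ⟨p, fun h => absurd h ht, le_refl _⟩)
  have hval : ∀ t, ∃ n, t ∈ S → ∃ p ∈ G, (t, n) ∈ p.1 := by
    intro t
    by_cases ht : t ∈ S
    · obtain ⟨p, hpG, hp⟩ := hGD (Dn t) ⟨t, rfl⟩
      obtain ⟨n, hn⟩ := hp ht
      exact ⟨n, fun _ => ⟨p, hpG, hn⟩⟩
    · exact ⟨0, fun h => absurd h ht⟩
  choose f hf using hval
  refine ⟨f, fun s hs t ht hst => ?_⟩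
  obtain ⟨p, hp, hsp⟩ := hf s hs
  obtain ⟨q, hq, htq⟩ := hf t ht
  obtain ⟨r, _, hrp, hrq⟩ := hG p hp q hq
  exact r.2.2.2 _ (hrp hsp) _ (hrq htq) hst

end BMR

end Pool.Agent.H995R3.Kurepa
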