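import Pool.Agent.H995R3.Kurepa.Trees

set_option autoImplicit false

open Set Cardinal

namespace Pool.Agent.H995R3.Kurepa

section Heights

variable {W : Type} [LinearOrder W] [WellFoundedLT W] {R : W → W → Prop}

/-- `r` is the height function of `R`. -/
def IsHt (R : W → W → Prop) (r : W → W) : Prop := ∀ b α, α < r b ↔ ∃ a, R a b ∧ r a = α

theorem exists_ht (hL : Like W) (h : TO R) (hpc : ∀ b, {a | R a b}.Countable) :
    ∃ r : W → W, IsHt R r := by
  classical
  have hex : ∀ (b : W) (F : ∀ a, R a b → W), ∃ m : W, (∀ a (ha : R a b), F a ha ≠ m) ∧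
      ∀ m' < m, ∃ a, ∃ ha : R a b, F a ha = m' := by
    intro b F
    have hne : {m : W | ∀ a (ha : R a b), F a ha ≠ m}.Nonempty := by
      haveI := (hpc b).to_subtype
      obtain ⟨m, hm⟩ := hL.bound (Set.countable_range (fun a : {a | R a b} => F a.1 a.2))
      refine ⟨m, fun a ha hh => ?_⟩
      exact (hm (F a ha) ⟨⟨a, ha⟩, rfl⟩).ne hh
    have hwf : WellFounded ((· < ·) : W → W → Prop) := wellFounded_lt
    refine ⟨hwf.min _ hne, hwf.min_mem _ hne, ?_⟩
    intro m' hm'
    by_contra hcon
    push Not at hcon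
    exact hwf.not_lt_min {m : W | ∀ a (ha : R a b), F a ha ≠ m} (x := m') hcon hm'
  choose m hm1 hm2 using hex
  let r : W → W := h.wf.fix (C := fun _ => W) (fun b F => m b F)
  have hr : ∀ b, r b = m b (fun a _ => r a) := fun b => h.wf.fix_eq (C := fun _ => W) _ b
  refine ⟨r, fun b α => ?_⟩
  have h1 : ∀ a, R a b → r a ≠ r b := by
    intro a ha
    rw [hr b]
    exact hm1 b (fun a _ => r a) a ha
  have h2 : ∀ c, ∀ m' < r c, ∃ a, R a c ∧ r a = m' := by
    intro c m' hm'
    rw [hr c] at hm'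
    obtain ⟨a, ha, hh⟩ := hm2 c (fun a _ => r a) m' hm'
    exact ⟨a, ha, hh⟩
  constructor
  · exact h2 b α
  · rintro ⟨a, ha, rfl⟩
    rcases lt_trichotomy (r a) (r b) with h3 | h3 | h3
    · exact h3
    · exact absurd h3 (h1 a ha)
    · obtain ⟨c, hc, hcb⟩ := h2 a _ h3
      exact absurd hcb (h1 c (h.tr _ _ _ hc ha))

omit [WellFoundedLT W] in
theorem ht_mono {r : W → W} (hr : IsHt R r) {a b : W} (hab : R a b) : r a < r b :=
  (hr b (r a)).mpr ⟨a, hab, rfl⟩

theorem iio_iso {α β : W}
    (θ : (fun p q : {ξ // ξ < α} => p.1 < q.1) ≃r (fun p q : {ξ // ξ < β} => p.1 < q.1)) :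
    β ≤ α := by
  by_contra hcon
  push Not at hcon
  have key : ∀ ξ : W, ∀ hξ : ξ < β, ξ ≤ (θ.symm ⟨ξ, hξ⟩).1 := by
    intro ξ
    induction ξ using WellFoundedLT.induction with
    | _ ξ ih =>
      intro hξ
      by_contra hlt
      push Not at hlt
      have h1 := ih _ hlt (hlt.trans hξ)
      have h2 : (θ.symm ⟨(θ.symm ⟨ξ, hξ⟩).1, hlt.trans hξ⟩).1 < (θ.symm ⟨ξ, hξ⟩).1 :=
        (θ.symm.map_rel_iff (a := ⟨(θ.symm ⟨ξ, hξ⟩).1, hlt.trans hξ⟩) (b := ⟨ξ, hξ⟩)).mpr hlt
      exact absurd h1 (not_le.mpr h2)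
  exact absurd (key α hcon) (not_le.mpr (θ.symm ⟨α, hcon⟩).2)

theorem hasHeight_iff (h : TO R) {r : W → W} (hr : IsHt R r) (b α : W) :
    HasHeight R b α ↔ r b = α := by
  have hiso : Nonempty ((fun p q : {a // R a b} => R p.1 q.1) ≃r
      (fun p q : {ξ // ξ < r b} => p.1 < q.1)) := by
    let F : {a // R a b} → {ξ // ξ < r b} := fun p => ⟨r p.1, ht_mono hr p.2⟩
    have hF : Function.Bijective F := by
      constructor
      · intro p q hpq
        have hpq' : r p.1 = r q.1 := congrArg Subtype.val hpq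
        rcases h.lin _ _ _ p.2 q.2 with h1 | h1 | h1
        · exact Subtype.ext h1
        · exact absurd hpq' (ht_mono hr h1).ne
        · exact absurd hpq' (ht_mono hr h1).ne'
      · rintro ⟨ξ, hξ⟩
        obtain ⟨a, ha, hh⟩ := (hr b ξ).mp hξ
        exact ⟨⟨a, ha⟩, Subtype.ext hh⟩
    refine ⟨⟨Equiv.ofBijective F hF, ?_⟩⟩
    intro p q
    show r p.1 < r q.1 ↔ R p.1 q.1
    constructor
    · intro hlt
      rcases h.lin _ _ _ p.2 q.2 with h1 | h1 | h1
      · rw [h1] at hlt
        exact absurd hlt (lt_irrefl _)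
      · exact h1
      · exact absurd (ht_mono hr h1) (not_lt.mpr hlt.le)
    · exact fun h1 => ht_mono hr h1
  constructor
  · rintro ⟨φ⟩
    obtain ⟨ψ⟩ := hiso
    exact le_antisymm (iio_iso (φ.symm.trans ψ)) (iio_iso (ψ.symm.trans φ))
  · rintro rfl
    exact hiso

end Heights

section Formula

variable {W : Type} [LinearOrder W]

theorem pi_and (h : Like W) (e : W × W ≃ W) {X : Type} [TopologicalSpace X] {A B : X → Prop}
    (hA : IsPi11 W {x | A x}) (hB : IsPi11 W {x | B x}) : IsPi11 W {x | A x ∧ B x} := by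
  obtain ⟨i0⟩ := h.nonempty
  obtain ⟨i1, h01⟩ := h.exists_gt i0
  have := pi_all h e (A := fun i x => if i = i0 then A x else B x) (X := X) (by
    intro i
    by_cases hi : i = i0
    · simpa [hi] using hA
    · simpa [hi] using hB)
  have hh : {x | A x ∧ B x} = {x | ∀ i, if i = i0 then A x else B x} := by
    ext x
    constructor
    · rintro ⟨H1, H2⟩ i
      by_cases hi : i = i0
      · simpa [hi] using H1
      · simpa [hi] using H2
    · intro H
      exact ⟨by simpa using H i0, by simpa [h01.ne'] using H i1⟩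
  rw [hh]
  exact this

/-- the relation coded by `x`. -/
def rel (e : W × W ≃ W) (o : W) (x : W → W) (a b : W) : Prop := x (e (a, b)) = o

/-- the first-order part of the formula. -/
def Mat (c : W → ℕ) (R : W → W → Prop) (r f : W → W) : Prop :=
  (∀ b α, α < r b ↔ ∃ a, R a b ∧ r a = α) →
    (∀ α, ∃ b, r b = α) ∧ (∀ α, ∃ β, ∀ b, r b = α → b < β) ∧
    (∃ b, ∀ a, a ≠ b → R b a) ∧
    (∀ a, ∃ b, ∃ d, b ≠ d ∧ (R a b ∧ ¬ ∃ i, R a i ∧ R i b) ∧ (R a d ∧ ¬ ∃ i, R a i ∧ R i d)) ∧
    (∀ a β, r a < β → ∃ b, R a b ∧ r b = β) ∧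
    ¬ (∀ s t u, (s = t ∨ R s t) → (s = u ∨ R s u) → c (f s) = c (f t) → c (f s) = c (f u) →
      (t = u ∨ R t u ∨ R u t))

/-- the whole `Π¹₁` formula. -/
def Fml (e : W × W ≃ W) (z o : W) (c : W → ℕ) (ι : ℕ → W) (x : W → W) : Prop :=
  (∀ a b, rel e o x a b ∨ x (e (a, b)) = z) ∧ (∀ a, ¬ rel e o x a a) ∧
    (∀ a b d, rel e o x a b → rel e o x b d → rel e o x a d) ∧
    (∀ a a' b, rel e o x a b → rel e o x a' b →
      a = a' ∨ rel e o x a a' ∨ rel e o x a' a) ∧
    (∀ b, ∃ β, ∀ a, rel e o x a b → a < β) ∧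
    (∀ g : Bai W, ∃ n : ℕ, ¬ rel e o x (g (ι (n + 1))) (g (ι n))) ∧
    ∀ r f : Bai W, Mat c (rel e o x) r f

variable (h : Like W) (e : W × W ≃ W)
include h e

theorem D.forall2 {X : Type} [TopologicalSpace X] {A : W → W → X → Prop}
    (hA : ∀ i j, D W (A i j)) : D W (fun x => ∀ i j, A i j x) :=
  D.all h e fun i => D.all h e fun j => hA i j

theorem D.forall3 {X : Type} [TopologicalSpace X] {A : W → W → W → X → Prop}
    (hA : ∀ i j k, D W (A i j k)) : D W (fun x => ∀ i j k, A i j k x) :=
  D.all h e fun i => D.all h e fun j => D.all h e fun k => hA i j k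

theorem D.eval2 {X : Type} [TopologicalSpace X] {φ ψ : X → Bai W} (hφ : Continuous φ)
    (hψ : Continuous ψ) (a b : W) (S : W → W → Prop) :
    D W (fun x => S (φ x a) (ψ x b)) := by
  have := D.ex h e (X := X) (A := fun w x => φ x a = w ∧ S w (ψ x b)) fun w =>
    D.and h e (D.eval h hφ a (fun v => v = w)) (D.eval h hψ b (S w))
  exact this.cong fun x => by simp

theorem D.relation {X : Type} [TopologicalSpace X] {φ : X → Bai W} (hφ : Continuous φ)
    (o a b : W) : D W (fun x => rel e o (φ x) a b) :=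
  D.eval h hφ _ (fun w => w = o)

theorem D.mat (o : W) (c : W → ℕ) {X : Type} [TopologicalSpace X] {φ ρ ψ : X → Bai W}
    (hφ : Continuous φ) (hρ : Continuous ρ) (hψ : Continuous ψ) :
    D W (fun x => Mat c (rel e o (φ x)) (ρ x) (ψ x)) := by
  have hr : ∀ a b, D W (fun x => rel e o (φ x) a b) := fun a b => D.relation h e hφ o a b
  refine D.imp h e ?_ ?_
  · refine D.forall2 h e fun b α => D.iff h e (D.eval h hρ b (fun w => α < w)) ?_
    exact D.ex h e fun a => D.and h e (hr a b) (D.eval h hρ a (fun w => w = α))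
  · refine D.and h e ?_ (D.and h e ?_ (D.and h e ?_ (D.and h e ?_ (D.and h e ?_ ?_))))
    · exact D.all h e fun α => D.ex h e fun b => D.eval h hρ b (fun w => w = α)
    · exact D.all h e fun α => D.ex h e fun β => D.all h e fun b =>
        D.imp h e (D.eval h hρ b (fun w => w = α)) (D.const h _)
    · exact D.ex h e fun b => D.all h e fun a => D.imp h e (D.const h _) (hr b a)
    · refine D.all h e fun a => D.ex h e fun b => D.ex h e fun d =>
        D.and h e (D.const h _) (D.and h e ?_ ?_)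
      · exact D.and h e (hr a b) (D.ex h e fun i => D.and h e (hr a i) (hr i b)).neg
      · exact D.and h e (hr a d) (D.ex h e fun i => D.and h e (hr a i) (hr i d)).neg
    · exact D.forall2 h e fun a β => D.imp h e (D.eval h hρ a (fun w => w < β))
        (D.ex h e fun b => D.and h e (hr a b) (D.eval h hρ b (fun w => w = β)))
    · refine (D.forall3 h e fun s t u => D.imp h e (D.or h e (D.const h _) (hr s t)) (D.imp h e
        (D.or h e (D.const h _) (hr s u)) (D.imp h e ?_ (D.imp h e ?_
          (D.or h e (D.const h _) (D.or h e (hr t u) (hr u t))))))).neg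
      · exact D.eval2 h e hψ hψ s t (fun v w => c v = c w)
      · exact D.eval2 h e hψ hψ s u (fun v w => c v = c w)

theorem pi_fml (z o : W) (c : W → ℕ) (ι : ℕ → W) :
    IsPi11 W {x : Bai W | Fml e z o c ι x} := by
  have hr : ∀ a b, D W (fun x : Bai W => rel e o x a b) := fun a b =>
    D.relation h e continuous_id o a b
  refine pi_and h e ?_ (pi_and h e ?_ (pi_and h e ?_ (pi_and h e ?_ (pi_and h e ?_
    (pi_and h e ?_ ?_)))))
  · exact (D.forall2 h e fun a b => D.or h e (hr a b)
      (D.eval h continuous_id _ (fun w => w = z))).1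
  · exact (D.all h e fun a => (hr a a).neg).1
  · exact (D.forall3 h e fun a b d => D.imp h e (hr a b) (D.imp h e (hr b d) (hr a d))).1
  · exact (D.forall3 h e fun a a' b => D.imp h e (hr a b) (D.imp h e (hr a' b)
      (D.or h e (D.const h _) (D.or h e (hr a a') (hr a' a))))).1
  · exact (D.all h e fun b => D.ex h e fun β => D.all h e fun a =>
      D.imp h e (hr a b) (D.const h _)).1
  · refine pi_all_bai h e (A := fun (x g : Bai W) =>
      ∃ n : ℕ, ¬ rel e o x (g (ι (n + 1))) (g (ι n))) ?_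
    have : D W (fun w : Bai W × Bai W => ∃ n : ℕ, ¬ rel e o w.1 (w.2 (ι (n + 1))) (w.2 (ι n))) := by
      refine D.exNat h e fun n => D.neg ?_
      have h1 : D W (fun w : Bai W × Bai W => ∃ c d, w.2 (ι (n + 1)) = c ∧ w.2 (ι n) = d ∧
          rel e o w.1 c d) :=
        D.ex h e fun c => D.ex h e fun d => D.and h e
          (D.eval h continuous_snd _ (fun v => v = c)) (D.and h e
            (D.eval h continuous_snd _ (fun v => v = d)) (D.relation h e continuous_fst o c d))
      exact h1.cong fun w => by simp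
    exact this.1
  · refine pi_all_bai h e (A := fun (x r : Bai W) => ∀ f : Bai W, Mat c (rel e o x) r f) ?_
    refine pi_all_bai h e (A := fun (w : Bai W × Bai W) (f : Bai W) =>
      Mat c (rel e o w.1) w.2 f) ?_
    exact (D.mat h e o c (φ := fun w : (Bai W × Bai W) × Bai W => w.1.1)
      (ρ := fun w => w.1.2) (ψ := fun w => w.2) (continuous_fst.comp continuous_fst)
      (continuous_snd.comp continuous_fst) continuous_snd).1

end Formula

section Main

variable {W : Type} [LinearOrder W] [WellFoundedLT W]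

/-- codes of regular non-special `ℵ₁`-trees. -/
theorem fml_iff (h : Like W) (e : W × W ≃ W) {z o : W} (hzo : z ≠ o)
    {c : W → ℕ} (hc : Function.Surjective c) {ι : ℕ → W} (hι : Function.Injective ι)
    (x : Bai W) : Fml e z o c ι x ↔
      ∃ R : W → W → Prop, Codes e z o x R ∧ IsAleph1Tree R ∧ IsRegular R ∧ ¬ IsSpecial R := by
  classical
  constructor
  · rintro ⟨h1, h2, h3, h4, h5, h6, h7⟩
    have hto : TO (rel e o x) := by
      refine ⟨h2, h3, h4, ?_⟩
      rw [wellFounded_iff_isEmpty_descending_chain]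
      refine ⟨fun ⟨g, hg⟩ => ?_⟩
      obtain ⟨n, hn⟩ := h6 (fun w => g (Function.invFun ι w))
      rw [Function.leftInverse_invFun hι, Function.leftInverse_invFun hι] at hn
      exact hn (hg n)
    have hpc : ∀ b, {a | rel e o x a b}.Countable := by
      intro b
      obtain ⟨β, hβ⟩ := h5 b
      exact (h.cnt β).mono hβ
    obtain ⟨r, hr⟩ := exists_ht h hto hpc
    have hH := hasHeight_iff hto hr
    obtain ⟨m1, m2, m3, m4, m5, -⟩ := h7 r r hr
    refine ⟨rel e o x, ?_, ⟨isTreeOrder_iff.mpr hto, ?_, ?_⟩, ⟨m3, ?_, ?_⟩, ?_⟩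
    · intro a b
      refine ⟨fun hh => hh, fun hh => ?_⟩
      exact (h1 a b).resolve_left hh
    · intro b
      exact ⟨r b, (hH b _).mpr rfl⟩
    · intro α
      constructor
      · obtain ⟨b, hb⟩ := m1 α
        exact ⟨b, (hH b α).mpr hb⟩
      · obtain ⟨β, hβ⟩ := m2 α
        exact (h.cnt β).mono fun b hb => hβ b ((hH b α).mp hb)
    · intro a
      obtain ⟨b, d, hbd, hb, hd⟩ := m4 a
      exact ⟨b, d, hbd, hb, hd⟩
    · intro a α β ha hαβ
      rw [hH] at ha
      obtain ⟨b, hb, hb'⟩ := m5 a β (by rw [ha]; exact hαβ)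
      exact ⟨b, hb, (hH b β).mpr hb'⟩
    · rintro ⟨f, hf⟩
      choose s hs using hc
      obtain ⟨-, -, -, -, -, m6⟩ := h7 r (fun w => s (f w)) hr
      apply m6
      intro s' t u h8 h9 h10 h11
      simp only [hs] at h10 h11
      exact hf s' t u h8 h9 h10 h11
  · rintro ⟨R, hR, ⟨hto, hht, hlev⟩, ⟨r1, r2, r3⟩, hns⟩
    have hrel : rel e o x = R := by
      funext a b
      apply propext
      constructor
      · intro hh
        by_contra hn
        have := (hR a b).2 hn
        exact hzo (this.symm.trans hh)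
      · intro hh
        exact (hR a b).1 hh
    rw [isTreeOrder_iff] at hto
    have hpc : ∀ b, {a | R a b}.Countable := by
      intro b
      obtain ⟨α, ⟨φ⟩⟩ := hht b
      haveI : Countable {ξ // ξ < α} := (h.cnt α).to_subtype
      have : Countable {a // R a b} := φ.toEquiv.countable_iff.mpr inferInstance
      exact Set.countable_coe_iff.mp this
    unfold Fml
    rw [hrel]
    refine ⟨?_, hto.irr, hto.tr, hto.lin, ?_, ?_, ?_⟩
    · intro a b
      by_cases hab : R a b
      · exact Or.inl hab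
      · exact Or.inr ((hR a b).2 hab)
    · intro b
      exact h.bound (hpc b)
    · intro g
      have hwf := hto.wf
      rw [wellFounded_iff_isEmpty_descending_chain] at hwf
      by_contra hcon
      push Not at hcon
      exact hwf.false ⟨fun n => g (ι n), hcon⟩
    · intro r f hr
      have hH := hasHeight_iff hto (r := r) hr
      refine ⟨?_, ?_, r1, ?_, ?_, ?_⟩
      · intro α
        obtain ⟨b, hb⟩ := (hlev α).1
        exact ⟨b, (hH b α).mp hb⟩
      · intro α
        obtain ⟨β, hβ⟩ := h.bound (hlev α).2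
        exact ⟨β, fun b hb => hβ b ((hH b α).mpr hb)⟩
      · intro a
        obtain ⟨b, d, hbd, hb, hd⟩ := r2 a
        exact ⟨b, d, hbd, hb, hd⟩
      · intro a β ha
        obtain ⟨b, hb, hb'⟩ := r3 a (r a) β ((hH a _).mpr rfl) ha
        exact ⟨b, hb, (hH b β).mp hb'⟩
      · intro hsp
        exact hns ⟨fun w => c (f w), hsp⟩

/-- The main theorem, over a general copy of `ω₁`. -/
theorem pi_kurepa (h : Like W) (hW : #W = aleph 1) (e : W × W ≃ W) {z o : W} (hzo : z ≠ o)
    (H : ∀ R : W → W → Prop, IsAleph1Tree R → IsRegular R → #(uncBranches R) ≤ aleph 1 →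
      IsSpecial R) : IsPi11 W (kurepaCodes e z o) := by
  haveI := h.infinite
  let c : W → ℕ := Function.invFun (Infinite.natEmbedding W)
  have hc : Function.Surjective c :=
    Function.invFun_surjective (Infinite.natEmbedding W).injective
  have key : kurepaCodes e z o = {x | Fml e z o c (Infinite.natEmbedding W) x} := by
    ext x
    have := fml_iff h e hzo hc (Infinite.natEmbedding W).injective x
    show _ ↔ Fml e z o c (Infinite.natEmbedding W) x
    rw [this]
    constructor
    · rintro ⟨R, hR, ⟨h1, h2⟩, h3⟩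
      refine ⟨R, hR, h1, h3, fun hs => ?_⟩
      have hto := isTreeOrder_iff.mp h1.1
      have hpc : ∀ b, {a | R a b}.Countable := by
        intro b
        obtain ⟨α, ⟨φ⟩⟩ := h1.2.1 b
        haveI : Countable {ξ // ξ < α} := (h.cnt α).to_subtype
        have : Countable {a // R a b} := φ.toEquiv.countable_iff.mpr inferInstance
        exact Set.countable_coe_iff.mp this
      have h4 := branches_le_of_special hto hpc hs
      rw [hW] at h4
      exact absurd (h2.trans h4) (not_le.mpr (aleph_lt_aleph.mpr (by norm_num)))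
    · rintro ⟨R, hR, h1, h3, h4⟩
      refine ⟨R, hR, ⟨h1, ?_⟩, h3⟩
      by_contra hcon
      push Not at hcon
      apply h4
      apply H R h1 h3
      have : (aleph 2 : Cardinal.{0}) = Order.succ (aleph 1) := by
        rw [succ_aleph]
        congr 1
        norm_num
      rw [this] at hcon
      exact Order.lt_succ_iff.mp hcon
  rw [key]
  exact pi_fml h e z o c _

end Main

end Pool.Agent.H995R3.Kurepa
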