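import Mathlib

set_option autoImplicit false

open Set Cardinal

namespace Pool.Agent.H995R3.Kurepa

/-! ## The generalized Baire space and its projective classes

`W` is a well-ordered set; in the results it is `ω₁`. -/

/-- The generalized Baire space `W ^ W`: all functions from `W` to `W`. -/
def Bai (W : Type) : Type := W → W

instance (W : Type) : CoeFun (Bai W) (fun _ => W → W) := ⟨fun f => f⟩

/-- The basic open set `[s] = {f : s ⊂ f}`, for `s` a function from the ordinal `a`
(that is, the initial segment `{ξ : ξ < a}`) to `W`. -/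
def basic (W : Type) [LinearOrder W] (a : W) (s : Iio a → W) : Set (Bai W) :=
  {f | ∀ ξ : Iio a, f ξ = s ξ}

/-- The bounded topology on the generalized Baire space. -/
instance (W : Type) [LinearOrder W] : TopologicalSpace (Bai W) :=
  TopologicalSpace.generateFrom {U | ∃ (a : W) (s : Iio a → W), U = basic W a s}

section Classes

variable (W : Type) [LinearOrder W] {X : Type} [TopologicalSpace X]

/-- `A` is `Π¹₁`: for some open `B` we have `x ∈ A ↔ ∀ g, (x, g) ∈ B`. -/
def IsPi11 (A : Set X) : Prop :=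
  ∃ B : Set (X × Bai W), IsOpen B ∧ ∀ x, x ∈ A ↔ ∀ g, (x, g) ∈ B

/-- `A` is `Σ¹₂`: for some `Π¹₁` subset `P` of the product, `x ∈ A ↔ ∃ g, (x, g) ∈ P`. -/
def IsSigma12 (A : Set X) : Prop :=
  ∃ P : Set (X × Bai W), IsPi11 W P ∧ ∀ x, x ∈ A ↔ ∃ g, (x, g) ∈ P

/-- `A` is `Π¹₂`: its complement is `Σ¹₂`. -/
def IsPi12 (A : Set X) : Prop := IsSigma12 W Aᶜ

/-- `A` is `Δ¹₂`: it is both `Σ¹₂` and `Π¹₂`. -/
def IsDelta12 (A : Set X) : Prop := IsSigma12 W A ∧ IsPi12 W A

end Classes

/-! ## Trees on `W` -/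

section Trees

variable {W : Type} [LinearOrder W] (R : W → W → Prop)

/-- `R` is a (strict) tree order on the set `W`: a strict partial order such that the set of
predecessors of every node is well-ordered by `R`. -/
def IsTreeOrder : Prop :=
  (∀ a, ¬ R a a) ∧ (∀ a b c, R a b → R b c → R a c) ∧
    ∀ b, IsWellOrder {a // R a b} (fun p q => R p.1 q.1)

/-- The node `b` has height `α`: its predecessors are order isomorphic to `{ξ : ξ < α}`. -/
def HasHeight (b α : W) : Prop :=
  Nonempty ((fun p q : {a // R a b} => R p.1 q.1) ≃r (fun p q : {ξ // ξ < α} => p.1 < q.1))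

/-- `R` is a tree order of height `ω₁` with countable levels (for `W = ω₁`): every node has a
height `α < ω₁`, and for every `α < ω₁` the `α`-th level is nonempty and countable. -/
def IsAleph1Tree : Prop :=
  IsTreeOrder R ∧ (∀ b, ∃ α, HasHeight R b α) ∧
    ∀ α, (∃ b, HasHeight R b α) ∧ {b | HasHeight R b α}.Countable

/-- `b` is an immediate successor of `a`. -/
def ImmSucc (a b : W) : Prop := R a b ∧ ¬ ∃ c, R a c ∧ R c b

/-- Regular trees: rooted, every node has at least two immediate successors, and pruned (a node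
of height `α` has extensions at every height `β > α`). -/
def IsRegular : Prop :=
  (∃ r, ∀ a, a ≠ r → R r a) ∧
    (∀ a, ∃ b c, b ≠ c ∧ ImmSucc R a b ∧ ImmSucc R a c) ∧
      ∀ a α β, HasHeight R a α → α < β → ∃ b, R a b ∧ HasHeight R b β

/-- The set of uncountable branches (a branch is a maximal chain). -/
def uncBranches : Set (Set W) := {b | IsMaxChain R b ∧ ¬ b.Countable}

/-- `R` is a Kurepa tree on `W = ω₁`: an `ℵ₁`-tree with at least `ℵ₂` uncountable branches. -/
def IsKurepa : Prop := IsAleph1Tree R ∧ aleph 2 ≤ #(uncBranches R)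

/-- Baumgartner's notion of a special tree: there is `f` from the nodes to `ω` such that
`s ≤ t, u` and `f s = f t = f u` imply that `t` and `u` are comparable. -/
def IsSpecial : Prop :=
  ∃ f : W → ℕ, ∀ s t u, (s = t ∨ R s t) → (s = u ∨ R s u) → f s = f t → f s = f u →
    t = u ∨ R t u ∨ R u t

/-- The point `x` codes the relation `R` through its characteristic function, with respect to
the bijection `e : W × W → W` (and the two values `z` and `o`, playing the roles of `0`, `1`). -/
def Codes (e : W × W ≃ W) (z o : W) (x : Bai W) (R : W → W → Prop) : Prop :=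
  ∀ a b, (R a b → x (e (a, b)) = o) ∧ (¬ R a b → x (e (a, b)) = z)

/-- The set of codes of regular Kurepa trees on `W`. -/
def kurepaCodes (e : W × W ≃ W) (z o : W) : Set (Bai W) :=
  {x | ∃ R : W → W → Prop, Codes e z o x R ∧ IsKurepa R ∧ IsRegular R}

end Trees

/-! ## `ω₁` and Martin's axiom -/

/-- The set `ω₁`. -/
abbrev Om : Type := (Ordinal.omega.{0} 1).ToType

/-- The countable chain condition: every set of pairwise incompatible elements is countable. -/
def CCC (P : Type) [PartialOrder P] : Prop :=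
  ∀ A : Set P, (∀ p ∈ A, ∀ q ∈ A, p ≠ q → ¬ ∃ r : P, r ≤ p ∧ r ≤ q) → A.Countable

/-- Martin's axiom for `ℵ₁` dense sets, `MA_{ℵ₁}`. -/
def MartinAxiomAleph1 : Prop :=
  ∀ (P : Type) [PartialOrder P] [Nonempty P], CCC P →
    ∀ 𝒟 : Set (Set P), #𝒟 ≤ aleph 1 → (∀ D ∈ 𝒟, ∀ p : P, ∃ q ∈ D, q ≤ p) →
      ∃ G : Set P, G.Nonempty ∧ (∀ p ∈ G, ∀ q : P, p ≤ q → q ∈ G) ∧
        (∀ p ∈ G, ∀ q ∈ G, ∃ r ∈ G, r ≤ p ∧ r ≤ q) ∧ ∀ D ∈ 𝒟, (G ∩ D).Nonempty

end Pool.Agent.H995R3.Kurepa
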