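import Pool.Agent.H995R3.Kurepa.Defs

set_option autoImplicit false

open Set Cardinal

namespace Pool.Agent.H995R3.Kurepa

section Basics

variable {W : Type} [LinearOrder W]

/-- the standing hypotheses: `W` looks like `ω₁`. -/
structure Like (W : Type) [LinearOrder W] : Prop where
  cnt : ∀ a : W, (Iio a).Countable
  unc : ¬ Countable W

theorem Like.bound (h : Like W) {A : Set W} (hA : A.Countable) : ∃ b, ∀ a ∈ A, a < b := by
  by_contra hb
  push Not at hb
  apply h.unc
  have : (univ : Set W) ⊆ ⋃ a ∈ A, (Iio a ∪ {a}) := by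
    intro b _
    obtain ⟨a, ha, hba⟩ := hb b
    simp only [mem_iUnion]
    refine ⟨a, ha, ?_⟩
    rcases hba.lt_or_eq with h1 | h1
    · exact Or.inl h1
    · exact Or.inr h1
  have h2 : (univ : Set W).Countable := by
    refine Set.Countable.mono this (hA.biUnion fun a _ => (h.cnt a).union (countable_singleton a))
  exact Set.countable_univ_iff.mp h2

theorem Like.nonempty (h : Like W) : Nonempty W := by
  by_contra hn
  rw [not_nonempty_iff] at hn
  exact h.unc inferInstance

theorem Like.infinite (h : Like W) : Infinite W := by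
  by_contra hn
  rw [not_infinite_iff_finite] at hn
  exact h.unc inferInstance

theorem Like.exists_gt (h : Like W) (a : W) : ∃ b, a < b := by
  obtain ⟨b, hb⟩ := h.bound (countable_singleton a)
  exact ⟨b, hb a rfl⟩

theorem Like.isOpen_iff (h : Like W) {U : Set (Bai W)} :
    IsOpen U ↔ ∀ f ∈ U, ∃ a : W, ∀ g : Bai W, (∀ ξ < a, g ξ = f ξ) → g ∈ U := by
  constructor
  · intro hU
    induction hU with
    | basic s hs =>
      obtain ⟨a, t, rfl⟩ := hs
      intro f hf
      refine ⟨a, fun g hg ξ => ?_⟩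
      rw [hg ξ.1 ξ.2]
      exact hf ξ
    | univ =>
      intro f _
      obtain ⟨a⟩ := h.nonempty
      exact ⟨a, fun _ _ => mem_univ _⟩
    | inter s t _ _ h1 h2 =>
      intro f hf
      obtain ⟨a, ha⟩ := h1 f hf.1
      obtain ⟨b, hb⟩ := h2 f hf.2
      exact ⟨max a b, fun g hg => ⟨ha g fun ξ hξ => hg ξ (lt_max_of_lt_left hξ),
        hb g fun ξ hξ => hg ξ (lt_max_of_lt_right hξ)⟩⟩
    | sUnion S _ h1 =>
      rintro f ⟨s, hs, hf⟩
      obtain ⟨a, ha⟩ := h1 s hs f hf
      exact ⟨a, fun g hg => ⟨s, hs, ha g hg⟩⟩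
  · intro hU
    choose a ha using hU
    have : U = ⋃ (f : Bai W) (hf : f ∈ U), basic W (a f hf) (fun ξ => f ξ) := by
      ext g
      simp only [mem_iUnion]
      constructor
      · intro hg
        exact ⟨g, hg, fun ξ => rfl⟩
      · rintro ⟨f, hf, hg⟩
        exact ha f hf g fun ξ hξ => hg ⟨ξ, hξ⟩
    rw [this]
    refine isOpen_iUnion fun f => isOpen_iUnion fun hf => ?_
    exact TopologicalSpace.isOpen_generateFrom_of_mem ⟨_, _, rfl⟩

theorem Like.isOpen_cyl (h : Like W) (f : Bai W) (a : W) :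
    IsOpen {g : Bai W | ∀ ξ < a, g ξ = f ξ} := by
  rw [h.isOpen_iff]
  intro g hg
  exact ⟨a, fun g' hg' ξ hξ => by rw [hg' ξ hξ, hg ξ hξ]⟩

theorem Like.isOpen_eval (h : Like W) (a : W) (S : W → Prop) :
    IsOpen {g : Bai W | S (g a)} := by
  rw [h.isOpen_iff]
  intro g hg
  obtain ⟨b, hb⟩ := h.exists_gt a
  refine ⟨b, fun g' hg' => ?_⟩
  have := hg' a hb
  simp only [mem_setOf_eq] at hg ⊢
  rwa [this]

theorem Like.continuous (h : Like W) {X : Type} [TopologicalSpace X] {φ : X → Bai W}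
    (H : ∀ x a, ∃ U : Set X, IsOpen U ∧ x ∈ U ∧ ∀ y ∈ U, ∀ ξ < a, φ y ξ = φ x ξ) :
    Continuous φ := by
  refine ⟨fun V hV => ?_⟩
  rw [isOpen_iff_forall_mem_open]
  intro x hx
  obtain ⟨a, ha⟩ := h.isOpen_iff.mp hV (φ x) hx
  obtain ⟨U, hU, hxU, h1⟩ := H x a
  exact ⟨U, fun y hy => ha _ (h1 y hy), hU, hxU⟩

variable (e : W × W ≃ W)

/-- the `i`-th section of a point of the Baire space. -/
def sec (i : W) (c : Bai W) : Bai W := fun ξ => c (e (i, ξ))

/-- the point with given sections. -/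
def join (G : W → Bai W) : Bai W := fun η => G (e.symm η).1 (e.symm η).2

theorem sec_join (G : W → Bai W) (i : W) : sec e i (join e G) = G i := by
  funext ξ
  simp [sec, join]

theorem Like.continuous_sec (h : Like W) (i : W) : Continuous (sec e i) := by
  apply h.continuous
  intro c a
  obtain ⟨b, hb⟩ := h.bound ((h.cnt a).image fun ξ => e (i, ξ))
  refine ⟨{g | ∀ ξ < b, g ξ = c ξ}, h.isOpen_cyl c b, fun _ _ => rfl, ?_⟩
  intro y hy ξ hξ
  exact hy _ (hb _ ⟨ξ, hξ, rfl⟩)

end Basics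

section Calculus

variable {W : Type} [LinearOrder W] (h : Like W) (e : W × W ≃ W)
variable {X : Type} [TopologicalSpace X]

include h

theorem pi_open {A : Set X} (hA : IsOpen A) : IsPi11 W A := by
  obtain ⟨a⟩ := h.nonempty
  exact ⟨{p | p.1 ∈ A}, hA.preimage continuous_fst, fun x => ⟨fun hx _ => hx,
    fun H => H (fun _ => a)⟩⟩

omit h in
theorem pi_comp {Y : Type} [TopologicalSpace Y] {A : Set Y} (hA : IsPi11 W A) {φ : X → Y}
    (hφ : Continuous φ) : IsPi11 W (φ ⁻¹' A) := by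
  obtain ⟨B, hB, H⟩ := hA
  refine ⟨{p | (φ p.1, p.2) ∈ B}, hB.preimage ?_, fun x => H (φ x)⟩
  exact (hφ.comp continuous_fst).prodMk continuous_snd

include e

theorem pi_all_bai {A : X → Bai W → Prop} (hA : IsPi11 W {z : X × Bai W | A z.1 z.2}) :
    IsPi11 W {x | ∀ g, A x g} := by
  obtain ⟨B, hB, H⟩ := hA
  obtain ⟨i0⟩ := h.nonempty
  obtain ⟨i1, h01⟩ := h.exists_gt i0
  refine ⟨{p | ((p.1, sec e i0 p.2), sec e i1 p.2) ∈ B}, hB.preimage ?_, fun x => ?_⟩
  · exact (continuous_fst.prodMk ((h.continuous_sec e i0).comp continuous_snd)).prodMk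
      ((h.continuous_sec e i1).comp continuous_snd)
  · simp only [mem_setOf_eq]
    constructor
    · intro hx c
      exact (H (x, sec e i0 c)).mp (hx _) _
    · intro hx g
      refine (H (x, g)).mpr fun k => ?_
      have := hx (join e fun i => if i = i0 then g else k)
      rwa [sec_join, sec_join, if_pos rfl, if_neg h01.ne'] at this

theorem pi_all {A : W → X → Prop} (hA : ∀ i, IsPi11 W {x | A i x}) :
    IsPi11 W {x | ∀ i, A i x} := by
  choose B hB H using hA
  obtain ⟨i0⟩ := h.nonempty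
  obtain ⟨i1, h01⟩ := h.exists_gt i0
  refine ⟨{p | (p.1, sec e i0 p.2) ∈ B (sec e i1 p.2 i0)}, ?_, fun x => ?_⟩
  · have : {p : X × Bai W | (p.1, sec e i0 p.2) ∈ B (sec e i1 p.2 i0)} =
        ⋃ i, ({p : X × Bai W | sec e i1 p.2 i0 = i} ∩ {p | (p.1, sec e i0 p.2) ∈ B i}) := by
      ext p
      simp
    rw [this]
    refine isOpen_iUnion fun i => IsOpen.inter ?_ ?_
    · exact (h.isOpen_eval i0 (fun w => w = i)).preimage
        ((h.continuous_sec e i1).comp continuous_snd)
    · exact (hB i).preimage (continuous_fst.prodMk ((h.continuous_sec e i0).comp continuous_snd))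
  · simp only [mem_setOf_eq]
    constructor
    · intro hx c
      exact (H _ x).mp (hx _) _
    · intro hx i
      refine (H i x).mpr fun g => ?_
      have := hx (join e fun j => if j = i0 then g else fun _ => i)
      rwa [sec_join, sec_join, if_pos rfl, if_neg h01.ne'] at this

theorem pi_ex {A : W → X → Prop} (hA : ∀ i, IsPi11 W {x | A i x}) :
    IsPi11 W {x | ∃ i, A i x} := by
  choose B hB H using hA
  refine ⟨{p | ∃ i, (p.1, sec e i p.2) ∈ B i}, ?_, fun x => ?_⟩
  · have : {p : X × Bai W | ∃ i, (p.1, sec e i p.2) ∈ B i} =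
        ⋃ i, {p | (p.1, sec e i p.2) ∈ B i} := by
      ext p
      simp
    rw [this]
    exact isOpen_iUnion fun i => (hB i).preimage
      (continuous_fst.prodMk ((h.continuous_sec e i).comp continuous_snd))
  · simp only [mem_setOf_eq]
    constructor
    · rintro ⟨i, hi⟩ c
      exact ⟨i, (H i x).mp hi _⟩
    · intro hx
      by_contra hn
      push Not at hn
      have : ∀ i, ∃ g, (x, g) ∉ B i := by
        intro i
        by_contra hg
        push Not at hg
        exact hn i ((H i x).mpr hg)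
      choose G hG using this
      obtain ⟨i, hi⟩ := hx (join e G)
      rw [sec_join] at hi
      exact hG i hi

end Calculus

/-- both `A` and its complement are `Π¹₁`. -/
def D (W : Type) [LinearOrder W] {X : Type} [TopologicalSpace X] (A : X → Prop) : Prop :=
  IsPi11 W {x | A x} ∧ IsPi11 W {x | ¬ A x}

section Delta

variable {W : Type} [LinearOrder W] {X : Type} [TopologicalSpace X]

theorem D.neg {A : X → Prop} (hA : D W A) : D W (fun x => ¬ A x) := by
  refine ⟨hA.2, ?_⟩
  simpa using hA.1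

theorem D.cong {A B : X → Prop} (hA : D W A) (hh : ∀ x, A x ↔ B x) : D W B := by
  have : A = B := funext fun x => propext (hh x)
  exact this ▸ hA

variable (h : Like W) (e : W × W ≃ W)
include h e

theorem D.all {A : W → X → Prop} (hA : ∀ i, D W (A i)) : D W (fun x => ∀ i, A i x) := by
  refine ⟨pi_all h e fun i => (hA i).1, ?_⟩
  have := pi_ex h e fun i => (hA i).2
  simpa using this

theorem D.ex {A : W → X → Prop} (hA : ∀ i, D W (A i)) : D W (fun x => ∃ i, A i x) := by
  refine ⟨pi_ex h e fun i => (hA i).1, ?_⟩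
  have := pi_all h e fun i => (hA i).2
  simpa using this

theorem D.and {A B : X → Prop} (hA : D W A) (hB : D W B) : D W (fun x => A x ∧ B x) := by
  obtain ⟨i0⟩ := h.nonempty
  obtain ⟨i1, h01⟩ := h.exists_gt i0
  have := D.all h e (A := fun i x => if i = i0 then A x else B x) (X := X) (by
    intro i
    by_cases hi : i = i0
    · simpa [hi] using hA
    · simpa [hi] using hB)
  refine this.cong fun x => ⟨fun H => ⟨by simpa using H i0, by simpa [h01.ne'] using H i1⟩, ?_⟩
  rintro ⟨H1, H2⟩ i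
  by_cases hi : i = i0
  · simpa [hi] using H1
  · simpa [hi] using H2

theorem D.or {A B : X → Prop} (hA : D W A) (hB : D W B) : D W (fun x => A x ∨ B x) := by
  refine (D.and h e hA.neg hB.neg).neg.cong fun x => ?_
  tauto

theorem D.imp {A B : X → Prop} (hA : D W A) (hB : D W B) : D W (fun x => A x → B x) := by
  refine (D.or h e hA.neg hB).cong fun x => ?_
  tauto

theorem D.iff {A B : X → Prop} (hA : D W A) (hB : D W B) : D W (fun x => (A x ↔ B x)) := by
  refine (D.and h e (D.imp h e hA hB) (D.imp h e hB hA)).cong fun x => ?_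
  tauto

theorem D.exNat {A : ℕ → X → Prop} (hA : ∀ i, D W (A i)) : D W (fun x => ∃ i, A i x) := by
  haveI := h.infinite
  have hs : Function.Surjective (Function.invFun (Infinite.natEmbedding W)) :=
    Function.invFun_surjective (Infinite.natEmbedding W).injective
  have := D.ex h e (A := fun i x => A (Function.invFun (Infinite.natEmbedding W) i) x)
    (X := X) (fun i => hA _)
  refine this.cong fun x => ⟨fun ⟨i, hi⟩ => ⟨_, hi⟩, fun ⟨n, hn⟩ => ?_⟩
  obtain ⟨i, rfl⟩ := hs n
  exact ⟨i, hn⟩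

omit e in
theorem D.open {A : X → Prop} (hA : IsOpen {x | A x}) (hA' : IsOpen {x | ¬ A x}) : D W A :=
  ⟨pi_open h hA, pi_open h hA'⟩

omit e in
theorem D.const (p : Prop) : D W (fun _ : X => p) :=
  D.open h (by by_cases hp : p <;> simp [hp]) (by by_cases hp : p <;> simp [hp])

omit e in
theorem D.eval {φ : X → Bai W} (hφ : Continuous φ) (a : W) (S : W → Prop) :
    D W (fun x => S (φ x a)) :=
  D.open h ((h.isOpen_eval a S).preimage hφ) ((h.isOpen_eval a (fun w => ¬ S w)).preimage hφ)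

/-- a closed subset of the square is `Π¹₁`. -/
theorem pi_closed {C : Set (Bai W × Bai W)} (hC : IsClosed C) : IsPi11 W C := by
  have key : C = {p | ∀ a : W, ∃ q ∈ C, (∀ ξ < a, p.1 ξ = q.1 ξ) ∧ ∀ ξ < a, p.2 ξ = q.2 ξ} := by
    ext p
    constructor
    · intro hp a
      exact ⟨p, hp, fun _ _ => rfl, fun _ _ => rfl⟩
    · intro hp
      by_contra hn
      have ho : IsOpen Cᶜ := hC.isOpen_compl
      rw [isOpen_prod_iff] at ho
      obtain ⟨U, V, hU, hV, hpU, hpV, hUV⟩ := ho p.1 p.2 hn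
      obtain ⟨a, ha⟩ := h.isOpen_iff.mp hU _ hpU
      obtain ⟨b, hb⟩ := h.isOpen_iff.mp hV _ hpV
      obtain ⟨q, hq, h1, h2⟩ := hp (max a b)
      have hqU : q.1 ∈ U := ha _ fun ξ hξ => (h1 ξ (lt_max_of_lt_left hξ)).symm
      have hqV : q.2 ∈ V := hb _ fun ξ hξ => (h2 ξ (lt_max_of_lt_right hξ)).symm
      exact hUV ⟨hqU, hqV⟩ hq
  rw [key]
  refine pi_all h e (A := fun a (p : Bai W × Bai W) =>
    ∃ q ∈ C, (∀ ξ < a, p.1 ξ = q.1 ξ) ∧ ∀ ξ < a, p.2 ξ = q.2 ξ) fun a => pi_open h ?_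
  rw [isOpen_iff_forall_mem_open]
  rintro p ⟨q, hq, h1, h2⟩
  refine ⟨{g | ∀ ξ < a, g ξ = p.1 ξ} ×ˢ {g | ∀ ξ < a, g ξ = p.2 ξ}, ?_,
    (h.isOpen_cyl p.1 a).prod (h.isOpen_cyl p.2 a), ⟨fun _ _ => rfl, fun _ _ => rfl⟩⟩
  rintro p' ⟨h3, h4⟩
  exact ⟨q, hq, fun ξ hξ => by rw [h3 ξ hξ, h1 ξ hξ], fun ξ hξ => by rw [h4 ξ hξ, h2 ξ hξ]⟩

theorem delta_of_pi {A : Set (Bai W)} (hA : IsPi11 W A) : IsDelta12 W A := by
  obtain ⟨a⟩ := h.nonempty
  constructor
  · refine ⟨{p | p.1 ∈ A}, pi_comp hA continuous_fst, fun x => ⟨fun hx => ⟨fun _ => a, hx⟩, ?_⟩⟩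
    rintro ⟨g, hg⟩
    exact hg
  · obtain ⟨B, hB, H⟩ := hA
    refine ⟨Bᶜ, pi_closed h e (isClosed_compl_iff.mpr hB), fun x => ?_⟩
    rw [mem_compl_iff, H x]
    simp

end Delta

end Pool.Agent.H995R3.Kurepa
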