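import Pool.Agent.H995R3.Kurepa.Bmr
import Pool.Agent.H995R3.Kurepa.Top

set_option autoImplicit false

open Set Cardinal

namespace Pool.Agent.H995R3.Kurepa

section TreeBasics

variable {W : Type} [LinearOrder W] {R : W → W → Prop}

/-- unfolded form of a tree order. -/
structure TO (R : W → W → Prop) : Prop where
  irr : ∀ a, ¬ R a a
  tr : ∀ a b c, R a b → R b c → R a c
  lin : ∀ a a' b, R a b → R a' b → a = a' ∨ R a a' ∨ R a' a
  wf : WellFounded R

theorem isTreeOrder_iff : IsTreeOrder R ↔ TO R := by
  constructor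
  · rintro ⟨h1, h2, h3⟩
    refine ⟨h1, h2, ?_, ?_⟩
    · intro a a' b ha ha'
      haveI := h3 b
      rcases trichotomous_of (fun p q : {a // R a b} => R p.1 q.1) ⟨a, ha⟩ ⟨a', ha'⟩ with h | h | h
      · exact Or.inr (Or.inl h)
      · exact Or.inl (congrArg Subtype.val h)
      · exact Or.inr (Or.inr h)
    · refine ⟨fun b => Acc.intro b fun a hab => ?_⟩
      haveI := h3 b
      have hwf : WellFounded (fun p q : {a // R a b} => R p.1 q.1) := IsWellFounded.wf
      have : ∀ p : {a // R a b}, Acc R p.1 := by
        intro p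
        induction hwf.apply p with
        | intro p _ ih =>
          refine Acc.intro _ fun c hc => ?_
          exact ih ⟨c, h2 _ _ _ hc p.2⟩ hc
      exact this ⟨a, hab⟩
  · intro h
    refine ⟨h.irr, h.tr, fun b => ?_⟩
    haveI : IsWellFounded {a // R a b} (fun p q => R p.1 q.1) :=
      ⟨InvImage.wf (fun p : {a // R a b} => p.1) h.wf⟩
    haveI : Std.Trichotomous (fun p q : {a // R a b} => R p.1 q.1) := by
      refine ⟨fun p q h1 h2 => ?_⟩
      rcases h.lin p.1 q.1 b p.2 q.2 with h | h | h
      · exact Subtype.ext h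
      · exact absurd h h1
      · exact absurd h h2
    exact {}

theorem branch_down (h : TO R) {b : Set W} (hb : IsMaxChain R b) {s t : W} (ht : t ∈ b)
    (hst : R s t) : s ∈ b := by
  have hch : IsChain R (insert s b) := by
    refine hb.1.insert fun u hu hne => ?_
    by_cases hut : u = t
    · subst hut
      exact Or.inl hst
    · rcases hb.1 hu ht hut with h1 | h1
      · rcases h.lin s u t hst h1 with h2 | h2 | h2
        · exact absurd h2 hne
        · exact Or.inl h2
        · exact Or.inr h2
      · exact Or.inl (h.tr _ _ _ hst h1)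
  have := hb.2 hch (subset_insert _ _)
  rw [this]
  exact mem_insert _ _

/-- special trees have at most `|W|` uncountable branches. -/
theorem branches_le_of_special (h : TO R) (hpc : ∀ b, {a | R a b}.Countable)
    (hs : IsSpecial R) : #(uncBranches R) ≤ #W := by
  obtain ⟨f, hf⟩ := hs
  have h1 : ∀ b : uncBranches R, ∃ s ∈ b.1, ¬ {u | u ∈ b.1 ∧ f u = f s}.Countable := by
    rintro ⟨b, hb, hbu⟩
    by_contra hcon
    push Not at hcon
    apply hbu
    have : b ⊆ ⋃ n : ℕ, {u | u ∈ b ∧ f u = n} := by
      intro u hu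
      simp only [mem_iUnion]
      exact ⟨_, hu, rfl⟩
    refine (Set.countable_iUnion fun n => ?_).mono this
    by_cases hn : ∃ s ∈ b, f s = n
    · obtain ⟨s, hs, rfl⟩ := hn
      exact hcon s hs
    · refine Set.Countable.mono ?_ Set.countable_empty
      rintro u ⟨hu, hun⟩
      exact hn ⟨u, hu, hun⟩
  choose s hsb hsu using h1
  -- above any countable set of nodes
  have up : ∀ (b : uncBranches R) (A : Set W), A.Countable → A ⊆ b.1 →
      ∃ u ∈ b.1, f u = f (s b) ∧ ∀ t ∈ A, R t u := by
    intro b A hA hAb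
    have hc : (A ∪ ⋃ t ∈ A, {a | R a t}).Countable :=
      hA.union (hA.biUnion fun t _ => hpc t)
    by_contra hcon
    push Not at hcon
    apply hsu b
    refine hc.mono ?_
    rintro u ⟨hu, hfu⟩
    obtain ⟨t, ht, htu⟩ := hcon u hu hfu
    by_cases hut : u = t
    · subst hut
      exact Or.inl ht
    · rcases b.2.1.1 hu (hAb ht) hut with h2 | h2
      · right
        simp only [mem_iUnion]
        exact ⟨t, ht, h2⟩
      · exact absurd h2 htu
  have main : ∀ b b' : uncBranches R, s b = s b' → b.1 ⊆ b'.1 := by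
    intro b b' hss t ht
    obtain ⟨u, hu, hfu, hu2⟩ := up b {t, s b} (by simp) (by
      intro x hx
      rcases hx with rfl | hx
      · exact ht
      · rw [mem_singleton_iff] at hx
        subst hx
        exact hsb b)
    have htu : R t u := hu2 t (by simp)
    have hsu' : R (s b) u := hu2 _ (by simp)
    -- find u' in b' not below u
    have hc : (({s b'} : Set W) ∪ ({u} ∪ {a | R a u})).Countable :=
      (countable_singleton _).union ((countable_singleton _).union (hpc u))
    have : ∃ u' ∈ b'.1, f u' = f (s b') ∧ R (s b') u' ∧ u' ≠ u ∧ ¬ R u' u := by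
      by_contra hcon
      push Not at hcon
      apply hsu b'
      have hc2 : ({u} ∪ {a | R a u} ∪ ({s b'} ∪ {a | R a (s b')})).Countable :=
        ((countable_singleton _).union (hpc u)).union ((countable_singleton _).union (hpc _))
      refine hc2.mono ?_
      rintro v ⟨hv, hfv⟩
      by_cases hvs : R (s b') v
      · by_cases hvu : v = u
        · exact Or.inl (Or.inl hvu)
        · exact Or.inl (Or.inr (hcon v hv hfv hvs hvu))
      · by_cases hvs' : v = s b'
        · exact Or.inr (Or.inl hvs')
        · rcases b'.2.1.1 hv (hsb b') hvs' with h2 | h2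
          · exact Or.inr (Or.inr h2)
          · exact absurd h2 hvs
    obtain ⟨u', hu', hfu', hsu'', hne, hnr⟩ := this
    have hcmp := hf (s b) u u' (Or.inr hsu') (Or.inr (by rw [hss]; exact hsu'')) hfu.symm
      (by rw [hfu', hss])
    have huu' : R u u' := by
      rcases hcmp with h2 | h2 | h2
      · exact absurd h2.symm hne
      · exact h2
      · exact absurd h2 hnr
    exact branch_down h b'.2.1 hu' (h.tr _ _ _ htu huu')
  have hinj : Function.Injective s := by
    intro b b' hbb
    exact Subtype.ext (Subset.antisymm (main b b' hbb) (main b' b hbb.symm))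
  exact mk_le_of_injective hinj

/-- under `MA_{ℵ₁}` a tree with at most `ℵ₁` uncountable branches is special. -/
theorem special_of_MA (hMA : MartinAxiomAleph1) (hL : Like W) [WellFoundedLT W]
    (hW : #W ≤ aleph 1) (h : TO R)
    (hpc : ∀ b, {a | R a b}.Countable) (hb : #(uncBranches R) ≤ #W) : IsSpecial R := by
  classical
  obtain ⟨g⟩ : Nonempty (uncBranches R ↪ W) := hb
  -- the starting point of the tail of each branch
  have hcap : ∀ b b' : uncBranches R, b ≠ b' → (b.1 ∩ b'.1).Countable := by
    intro b b' hne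
    have : ∃ t ∈ b.1, t ∉ b'.1 := by
      by_contra hcon
      push Not at hcon
      exact hne (Subtype.ext (b.2.1.2 b'.2.1.1 hcon))
    obtain ⟨t, ht, ht'⟩ := this
    refine ((hpc t).union (countable_singleton t)).mono ?_
    rintro u ⟨hu, hu'⟩
    by_cases hut : u = t
    · exact Or.inr hut
    · rcases b.2.1.1 hu ht hut with h1 | h1
      · exact Or.inl h1
      · exact absurd (branch_down h b'.2.1 hu' h1) ht'
  have hstart : ∀ b : uncBranches R, ∃ s ∈ b.1, ∀ b' : uncBranches R, g b' < g b → s ∉ b'.1 := by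
    intro b
    by_contra hcon
    push Not at hcon
    apply b.2.2
    have hsub : b.1 ⊆ ⋃ b' ∈ {b' : uncBranches R | g b' < g b}, (b.1 ∩ b'.1) := by
      intro s hs
      obtain ⟨b', hb', hs'⟩ := hcon s hs
      simp only [mem_iUnion]
      exact ⟨b', hb', hs, hs'⟩
    refine Set.Countable.mono hsub (Set.Countable.biUnion ?_ ?_)
    · exact (hL.cnt (g b)).preimage g.injective
    · intro b' hb'
      refine hcap b b' ?_
      rintro rfl
      exact lt_irrefl _ hb'
  choose s hsb hs using hstart
  let tail : uncBranches R → Set W := fun b => {t | t ∈ b.1 ∧ R (s b) t}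
  let S : Set W := {t | ∀ b, t ∉ tail b}
  have hsS : ∀ b, s b ∈ S := by
    intro b b' hbb'
    obtain ⟨h1, h2⟩ := hbb'
    rcases lt_trichotomy (g b) (g b') with h3 | h3 | h3
    · exact hs b' b h3 (branch_down h b.2.1 (hsb b) h2)
    · have := g.injective h3
      subst this
      exact h.irr _ h2
    · exact hs b b' h3 h1
  have htail : ∀ b b' t, t ∈ tail b → t ∈ tail b' → b = b' := by
    intro b b' t ht ht'
    rcases lt_trichotomy (g b) (g b') with h3 | h3 | h3
    · exact absurd (branch_down h b.2.1 ht.1 ht'.2) (hs b' b h3)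
    · exact g.injective h3
    · exact absurd (branch_down h b'.2.1 ht'.1 ht.2) (hs b b' h3)
  have hsinj : ∀ b b', s b = s b' → b = b' := by
    intro b b' hh
    rcases lt_trichotomy (g b) (g b') with h3 | h3 | h3
    · exact absurd (by rw [← hh]; exact hsb b) (hs b' b h3)
    · exact g.injective h3
    · exact absurd (by rw [hh]; exact hsb b') (hs b b' h3)
  have hSch : ∀ C ⊆ S, IsChain R C → C.Countable := by
    intro C hCS hC
    by_contra hCu
    obtain ⟨M, hM, hCM⟩ := hC.exists_maxChain
    have hMu : ¬ M.Countable := fun hc => hCu (hc.mono hCM)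
    let b : uncBranches R := ⟨M, hM, hMu⟩
    apply hCu
    refine ((hpc (s b)).union (countable_singleton (s b))).mono ?_
    intro t ht
    by_cases hts : t = s b
    · exact Or.inr hts
    · rcases hM.1 (hCM ht) (hsb b) hts with h1 | h1
      · exact Or.inl h1
      · exact absurd ⟨hCM ht, h1⟩ (hCS ht b)
  obtain ⟨f', hf'⟩ := bmr hMA hW h.irr h.lin hpc hSch
  have hπ : ∀ t, ∃ p ∈ S, (p = t ∨ R p t) ∧ ((p = t) ∨ ∃ b, t ∈ tail b ∧ p = s b) := by
    intro t
    by_cases ht : t ∈ S
    · exact ⟨t, ht, Or.inl rfl, Or.inl rfl⟩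
    · have : ∃ b, t ∈ tail b := by
        by_contra hcon
        push Not at hcon
        exact ht hcon
      obtain ⟨b, hb⟩ := this
      exact ⟨s b, hsS b, Or.inr hb.2, Or.inr ⟨b, hb, rfl⟩⟩
  choose π hπS hπle hπc using hπ
  have cmp : ∀ p q y, (p = y ∨ R p y) → (q = y ∨ R q y) → p = q ∨ R p q ∨ R q p := by
    rintro p q y (rfl | h1) (rfl | h2)
    · exact Or.inl rfl
    · exact Or.inr (Or.inr h2)
    · exact Or.inr (Or.inl h1)
    · exact h.lin _ _ _ h1 h2
  have hle : ∀ p x y, (p = x ∨ R p x) → (x = y ∨ R x y) → (p = y ∨ R p y) := by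
    rintro p x y (rfl | h1) (rfl | h2)
    · exact Or.inl rfl
    · exact Or.inr h2
    · exact Or.inr h1
    · exact Or.inr (h.tr _ _ _ h1 h2)
  have key : ∀ x y, (x = y ∨ R x y) → f' (π x) = f' (π y) → π x = π y := by
    intro x y hxy hfe
    rcases cmp (π x) (π y) y (hle _ _ _ (hπle x) hxy) (hπle y) with h1 | h1 | h1
    · exact h1
    · exact absurd hfe (hf' _ (hπS x) _ (hπS y) h1)
    · exact absurd hfe.symm (hf' _ (hπS y) _ (hπS x) h1)
  refine ⟨fun t => f' (π t), fun x t u hxt hxu h1 h2 => ?_⟩
  have e1 := key x t hxt h1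
  have e2 := key x u hxu h2
  have e3 : π t = π u := e1.symm.trans e2
  rcases hπc t with h3 | ⟨b, hb, h3⟩
  · rcases hπle u with h4 | h4
    · left
      rw [← h3, e3, h4]
    · right; left
      rw [← h3, e3]
      exact h4
  · rcases hπc u with h5 | ⟨b', hb', h5⟩
    · rcases hπle t with h4 | h4
      · left
        rw [← h5, ← e3, h4]
      · right; right
        rw [← h5, ← e3]
        exact h4
    · have hbb : b = b' := hsinj _ _ (by rw [← h3, ← h5, e3])
      subst hbb
      by_cases htu : t = u
      · exact Or.inl htu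
      · exact Or.inr (b.2.1.1 hb.1 hb'.1 htu)

end TreeBasics

end Pool.Agent.H995R3.Kurepa
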